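import Pool.Agent.Y275.HK.FWgeo
import Pool.Agent.Y254.HK.Stm
import Pool.Agent.W46.HD.Tools
import Pool.Agent.W976.HD.Psi

/-!
# The two heights `v`, `s1` from two independent copies of `τ` (job HK-FW)
-/

set_option autoImplicit false

open Finset
open scoped Classical

namespace Pool.Agent.Y275.HK
open Pool.Agent.W904.AK Pool.Agent.W46.HD Pool.Agent.W46.HM Pool.Agent.Y244.HM
  Pool.Agent.Y254HK

/-! ### The cost function -/

/-- logarithm of the cost of `v` -/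
noncomputable def lr (n : ℕ) (v s τ σ : ℕ) (z w : ℤ) : ℝ :=
  psi n τ v + psi n σ v + psi n v s + psi n τ s + psi n σ s + psi n τ σ + pz n τ z + pz n σ w

theorem psi_eq_log (n i : ℕ) : psi n i i = Real.log n := by
  unfold psi
  rw [sub_self, abs_zero, max_eq_left zero_le_one, div_one]

theorem psi_le_log {n i j : ℕ} (hn : 1 ≤ n) : psi n i j ≤ Real.log n := by
  unfold psi
  have hn' : (1 : ℝ) ≤ n := by exact_mod_cast hn
  have h1 : (1 : ℝ) ≤ max 1 |(i : ℝ) - (j : ℝ)| := le_max_left _ _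
  apply Real.log_le_log (by positivity)
  exact div_le_self (by linarith) h1

theorem pz_nonneg (n : ℕ) (x y : ℤ) : 0 ≤ pz n x y := Real.log_nonneg (le_max_left _ _)

theorem pz_le_log {n : ℕ} (hn : 1 ≤ n) (x y : ℤ) : pz n x y ≤ Real.log n := by
  unfold pz
  have hn' : (1 : ℝ) ≤ n := by exact_mod_cast hn
  apply Real.log_le_log (lt_of_lt_of_le one_pos (le_max_left _ _))
  refine max_le hn' ?_
  exact div_le_self (by linarith) (le_max_left _ _)

theorem pz_eq_log {n : ℕ} (hn : 1 ≤ n) (x : ℤ) : pz n x x = Real.log n := by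
  unfold pz
  have hn' : (1 : ℝ) ≤ n := by exact_mod_cast hn
  rw [sub_self, abs_zero, max_eq_left zero_le_one, div_one, max_eq_right hn']

theorem exp_psi {n i j : ℕ} (hn : 1 ≤ n) : (n : ℝ) = Real.exp (psi n i j) * max 1 |(i : ℝ) - j| := by
  unfold psi
  have hn' : (1 : ℝ) ≤ n := by exact_mod_cast hn
  have h1 : (0 : ℝ) < max 1 |(i : ℝ) - (j : ℝ)| := lt_of_lt_of_le one_pos (le_max_left _ _)
  rw [Real.exp_log (by positivity), div_mul_cancel₀ _ h1.ne']

theorem exp_pz {n : ℕ} (x y : ℤ) :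
    (n : ℝ) ≤ Real.exp (pz n x y) * max 1 |(x : ℝ) - (y : ℝ)| := by
  unfold pz
  have h1 : (0 : ℝ) < max 1 |(x : ℝ) - (y : ℝ)| := lt_of_lt_of_le one_pos (le_max_left _ _)
  rw [Real.exp_log (lt_of_lt_of_le one_pos (le_max_left _ _))]
  calc (n : ℝ) = n / max 1 |(x : ℝ) - (y : ℝ)| * max 1 |(x : ℝ) - (y : ℝ)| := by
        rw [div_mul_cancel₀ _ h1.ne']
    _ ≤ _ := mul_le_mul_of_nonneg_right (le_max_right _ _) h1.le

/-- different integers are at distance at least one -/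
theorem one_le_int {x y : ℤ} (h : x ≠ y) : (1 : ℝ) ≤ |(x : ℝ) - (y : ℝ)| := by
  have h1 : (1 : ℤ) ≤ |x - y| := Int.one_le_abs (sub_ne_zero.2 h)
  exact_mod_cast h1

theorem exp_psi_ne {n i j : ℕ} (hn : 1 ≤ n) (hij : i ≠ j) :
    (n : ℝ) = Real.exp (psi n i j) * |(i : ℝ) - j| := by
  have h1 : (1 : ℝ) ≤ |(i : ℝ) - (j : ℝ)| := by
    have := one_le_int (x := (i : ℤ)) (y := (j : ℤ)) (by exact_mod_cast hij)
    exact_mod_cast this
  have := exp_psi (i := i) (j := j) hn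
  rwa [max_eq_right h1] at this

theorem exp_pz_ne {n : ℕ} {x y : ℤ} (h : x ≠ y) :
    (n : ℝ) ≤ Real.exp (pz n x y) * |(x : ℝ) - (y : ℝ)| := by
  have := exp_pz (n := n) x y
  rwa [max_eq_right (one_le_int h)] at this

/-- The auxiliary real point. -/
noncomputable def gst (s v τ : ℕ) (y : ℤ) : ℝ := v + (y : ℝ) * ((τ : ℝ) - v) / ((τ : ℝ) - s)

theorem gst_near (s v τ : ℕ) (y : ℤ) : |((v : ℝ) + (mm s v τ y : ℝ)) - gst s v τ y| ≤ 1 / 2 := by
  have h : ((v : ℝ) + (mm s v τ y : ℝ)) - gst s v τ y =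
      -((y : ℝ) * ((τ : ℝ) - v) / ((τ : ℝ) - s) - round ((y : ℝ) * ((τ : ℝ) - v) / ((τ : ℝ) - s))) := by
    unfold gst mm
    ring
  rw [h, abs_neg]
  exact abs_sub_round _

theorem gst_id {s v τ : ℕ} (h : τ ≠ s) (y : ℤ) :
    ((s : ℝ) - τ) * (gst s v τ y - τ) = (((s : ℝ) + y) - τ) * ((v : ℝ) - τ) := by
  have h1 : (τ : ℝ) - s ≠ 0 := sub_ne_zero.2 (by exact_mod_cast h)
  unfold gst
  field_simp
  ring

/-- In a degenerate situation the cost is at least `n`. -/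
theorem lr_big {n v s τ σ : ℕ} (hn : 1 ≤ n) (hv : v < n) (hs : s < n) (hτ : τ < n) (hσ : σ < n)
    (z w : ℤ) {y y' m : ℤ} (hz : z = s + y) (hw : w = s + y') (hm : m = mm s v τ y)
    (hm' : m = mm s v σ y')
    (h : (v = τ ∨ v = σ ∨ v = s ∨ τ = s ∨ σ = s ∨ τ = σ ∨ z = τ ∨ w = σ) ∨
      (v : ℤ) + m = τ ∨ (v : ℤ) + m = σ) :
    (n : ℝ) ≤ 6 * Real.exp (lr n v s τ σ z w) := by
  have hnr : (1 : ℝ) ≤ n := by exact_mod_cast hn
  have q1 := psi_nonneg hτ hv
  have q2 := psi_nonneg hσ hv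
  have q3 := psi_nonneg hv hs
  have q4 := psi_nonneg hτ hs
  have q5 := psi_nonneg hσ hs
  have q6 := psi_nonneg hτ hσ
  have q7 := pz_nonneg n τ z
  have q8 := pz_nonneg n σ w
  have key : Real.log n ≤ lr n v s τ σ z w → (n : ℝ) ≤ 6 * Real.exp (lr n v s τ σ z w) := by
    intro hle
    have h1 := Real.exp_le_exp.2 hle
    rw [Real.exp_log (by linarith)] at h1
    linarith
  by_cases hd : v = τ ∨ v = σ ∨ v = s ∨ τ = s ∨ σ = s ∨ τ = σ ∨ z = τ ∨ w = σ
  · apply key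
    unfold lr
    rcases hd with rfl | rfl | rfl | rfl | rfl | rfl | rfl | rfl
    · have := psi_eq_log n v; linarith
    · have := psi_eq_log n v; linarith
    · have := psi_eq_log n v; linarith
    · have := psi_eq_log n τ; linarith
    · have := psi_eq_log n σ; linarith
    · have := psi_eq_log n τ; linarith
    · have := pz_eq_log hn (τ : ℤ); linarith
    · have := pz_eq_log hn (σ : ℤ); linarith
  · have h2 := h.resolve_left hd
    push Not at hd
    obtain ⟨d1, d2, d3, d4, d5, d6, d7, d8⟩ := hd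
    -- `γ = τ` forces `|z - τ| |v - τ| ≤ n / 2`
    have main : ∀ (ρ : ℕ) (x u : ℤ), ρ < n → ρ ≠ s → v ≠ ρ → x = s + u → x ≠ ρ → m = mm s v ρ u →
        (v : ℤ) + m = ρ → Real.log n ≤ psi n ρ v + pz n ρ x := by
      intro ρ x u hρ k1 k2 k3 k4 k5 k6
      have e1 := gst_id (v := v) k1 u
      have e2 := gst_near s v ρ u
      rw [← k5] at e2
      have e3 : (v : ℝ) + (m : ℝ) = ρ := by exact_mod_cast k6
      rw [e3] at e2
      have e4 : |((s : ℝ) + u) - ρ| * |(v : ℝ) - ρ| ≤ n := by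
        rw [← abs_mul, ← e1, abs_mul]
        have e5 : |(s : ℝ) - ρ| ≤ n := by
          have a1 : (s : ℝ) < n := by exact_mod_cast hs
          have a2 : (ρ : ℝ) < n := by exact_mod_cast hρ
          have a3 : (0 : ℝ) ≤ s := Nat.cast_nonneg _
          have a4 : (0 : ℝ) ≤ ρ := Nat.cast_nonneg _
          rw [abs_le]
          constructor <;> linarith
        rw [abs_sub_comm] at e2
        calc |(s : ℝ) - ρ| * |gst s v ρ u - ρ| ≤ n * (1 / 2) :=
              mul_le_mul e5 e2 (abs_nonneg _) (by linarith)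
          _ ≤ n := by linarith
      have f1 := exp_psi_ne (n := n) hn (Ne.symm k2)
      have f2 := exp_pz_ne (n := n) (x := (ρ : ℤ)) (y := x) (Ne.symm k4)
      have e6 : |((ρ : ℤ) : ℝ) - (x : ℝ)| = |((s : ℝ) + u) - ρ| := by
        rw [abs_sub_comm, k3]
        push_cast
        rfl
      have e7 : |(ρ : ℝ) - v| = |(v : ℝ) - ρ| := abs_sub_comm _ _
      rw [e7] at f1
      rw [e6] at f2
      have f3 : (n : ℝ) * n ≤ Real.exp (psi n ρ v + pz n ρ x) * n := by
        calc (n : ℝ) * n ≤ (Real.exp (psi n ρ v) * |(v : ℝ) - ρ|) *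
              (Real.exp (pz n ρ x) * |((s : ℝ) + u) - ρ|) := by
                apply mul_le_mul f1.le f2 (by linarith) (by positivity)
          _ = Real.exp (psi n ρ v + pz n ρ x) * (|((s : ℝ) + u) - ρ| * |(v : ℝ) - ρ|) := by
                rw [Real.exp_add]; ring
          _ ≤ _ := mul_le_mul_of_nonneg_left e4 (Real.exp_pos _).le
      have f4 : (n : ℝ) ≤ Real.exp (psi n ρ v + pz n ρ x) :=
        le_of_mul_le_mul_right f3 (by linarith)
      calc Real.log n ≤ Real.log (Real.exp (psi n ρ v + pz n ρ x)) :=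
            Real.log_le_log (by linarith) f4
        _ = _ := Real.log_exp _
    apply key
    unfold lr
    rcases h2 with h3 | h3
    · have := main τ z y hτ d4 d1 hz d7 hm h3
      linarith
    · have := main σ w y' hσ d5 d2 hw d8 hm' h3
      linarith

/-- The key estimate for two samples. -/
theorem fw_key {n v s v' s' τ σ : ℕ} (hn : 1 ≤ n) (hv : v < n) (hs : s < n) (hv' : v' < n)
    (hs' : s' < n) (hτ : τ < n) (hσ : σ < n) {z w y u y' u' m m' : ℤ}
    (hz : z = s + y) (hw : w = s + u) (hm : m = mm s v τ y) (hmu : m = mm s v σ u)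
    (hz' : z = s' + y') (hw' : w = s' + u') (hm' : m' = mm s' v' τ y') (hmu' : m' = mm s' v' σ u')
    (hγ : (v : ℤ) + m = v' + m') :
    |(v : ℝ) - v'| ≤ 6 * Real.exp (lr n v s τ σ z w) + 6 * Real.exp (lr n v' s' τ σ z w) := by
  have b : ∀ i j : ℕ, i < n → j < n → |(i : ℝ) - j| ≤ n := by
    intro i j hi hj
    have a1 : (i : ℝ) < n := by exact_mod_cast hi
    have a2 : (j : ℝ) < n := by exact_mod_cast hj
    have a3 : (0 : ℝ) ≤ i := Nat.cast_nonneg _
    have a4 : (0 : ℝ) ≤ j := Nat.cast_nonneg _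
    rw [abs_le]
    constructor <;> linarith
  have hnr : (1 : ℝ) ≤ n := by exact_mod_cast hn
  have p1 : 0 < Real.exp (lr n v s τ σ z w) := Real.exp_pos _
  have p2 : 0 < Real.exp (lr n v' s' τ σ z w) := Real.exp_pos _
  by_cases h : (v = τ ∨ v = σ ∨ v = s ∨ τ = s ∨ σ = s ∨ τ = σ ∨ z = τ ∨ w = σ) ∨
      (v : ℤ) + m = τ ∨ (v : ℤ) + m = σ
  · have h1 := lr_big hn hv hs hτ hσ z w hz hw hm hmu h
    have := b v v' hv hv'
    linarith
  by_cases h' : (v' = τ ∨ v' = σ ∨ v' = s' ∨ τ = s' ∨ σ = s' ∨ τ = σ ∨ z = τ ∨ w = σ) ∨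
      (v' : ℤ) + m' = τ ∨ (v' : ℤ) + m' = σ
  · have h1 := lr_big hn hv' hs' hτ hσ z w hz' hw' hm' hmu' h'
    have := b v v' hv hv'
    linarith
  push Not at h h'
  obtain ⟨⟨d1, d2, d3, d4, d5, d6, d7, d8⟩, d9, d10⟩ := h
  obtain ⟨⟨c1, c2, c3, c4, c5, c6, c7, c8⟩, c9, c10⟩ := h'
  obtain ⟨γ, hγd⟩ : ∃ γ : ℤ, γ = v + m := ⟨_, rfl⟩
  have g1 : |(γ : ℝ) - gst s v τ y| ≤ 1 / 2 := by
    have := gst_near s v τ y
    rw [← hm] at this
    rw [hγd]; push_cast; exact this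
  have g2 : |(γ : ℝ) - gst s v σ u| ≤ 1 / 2 := by
    have := gst_near s v σ u
    rw [← hmu] at this
    rw [hγd]; push_cast; exact this
  have g3 : |(γ : ℝ) - gst s' v' τ y'| ≤ 1 / 2 := by
    have := gst_near s' v' τ y'
    rw [← hm'] at this
    rw [hγd, hγ]; push_cast; exact this
  have g4 : |(γ : ℝ) - gst s' v' σ u'| ≤ 1 / 2 := by
    have := gst_near s' v' σ u'
    rw [← hmu'] at this
    rw [hγd, hγ]; push_cast; exact this
  have i1 := gst_id (v := v) d4 y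
  have i2 := gst_id (v := v) d5 u
  have i3 := gst_id (v := v') c4 y'
  have i4 := gst_id (v := v') c5 u'
  have z1 : (s : ℝ) + y = z := by rw [hz]; push_cast; ring
  have z2 : (s : ℝ) + u = w := by rw [hw]; push_cast; ring
  have z3 : (s' : ℝ) + y' = z := by rw [hz']; push_cast; ring
  have z4 : (s' : ℝ) + u' = w := by rw [hw']; push_cast; ring
  rw [z1] at i1
  rw [z2] at i2
  rw [z3] at i3
  rw [z4] at i4
  have o1 : 1 ≤ |(γ : ℝ) - τ| := by
    have := one_le_int (x := γ) (y := (τ : ℤ)) (by rw [hγd]; exact d9)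
    exact_mod_cast this
  have o2 : 1 ≤ |(γ : ℝ) - σ| := by
    have := one_le_int (x := γ) (y := (σ : ℤ)) (by rw [hγd]; exact d10)
    exact_mod_cast this
  have main := fw_main (N := (n : ℝ)) (τ := (τ : ℝ)) (σ := (σ : ℝ)) (z := (z : ℝ)) (w := (w : ℝ))
    (γ := (γ : ℝ)) (v := (v : ℝ)) (s := (s : ℝ)) (a := gst s v τ y) (b := gst s v σ u)
    (v' := (v' : ℝ)) (s' := (s' : ℝ)) (a' := gst s' v' τ y') (b' := gst s' v' σ u')
    i1 i2 i3 i4 g1 g2 g3 g4 o1 o2 (by exact_mod_cast d1) (by exact_mod_cast d2)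
    (by exact_mod_cast c1) (by exact_mod_cast c2) (b _ _ hv' hτ) (b _ _ hv' hσ) (b _ _ hs hτ)
    (b _ _ hs hσ) (b _ _ hv hτ) (b _ _ hv hσ) (P := Real.exp (psi n τ v))
    (Q := Real.exp (pz n τ z)) (P' := Real.exp (psi n σ v)) (Q' := Real.exp (pz n σ w))
    (E := Real.exp (psi n τ σ)) (F := Real.exp (psi n v s))
    (by rw [abs_sub_comm]; exact (exp_psi_ne hn (Ne.symm d1)).le)
    (by
      have := exp_pz_ne (n := n) (x := (τ : ℤ)) (y := z) (Ne.symm d7)
      rw [abs_sub_comm] at this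
      exact_mod_cast this)
    (by rw [abs_sub_comm]; exact (exp_psi_ne hn (Ne.symm d2)).le)
    (by
      have := exp_pz_ne (n := n) (x := (σ : ℤ)) (y := w) (Ne.symm d8)
      rw [abs_sub_comm] at this
      exact_mod_cast this)
    (exp_psi_ne hn d6).le (exp_psi_ne hn d3).le
    (Real.one_le_exp (psi_nonneg hτ hv)) (Real.one_le_exp (pz_nonneg _ _ _))
    (Real.one_le_exp (psi_nonneg hσ hv)) (Real.one_le_exp (pz_nonneg _ _ _))
    (Real.one_le_exp (psi_nonneg hτ hσ)) (Real.one_le_exp (psi_nonneg hv hs)) (by linarith)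
  have q4 := psi_nonneg hτ hs
  have q5 := psi_nonneg hσ hs
  have e : Real.exp (psi n τ v) * Real.exp (pz n τ z) * Real.exp (psi n σ v) *
      Real.exp (pz n σ w) * Real.exp (psi n τ σ) * Real.exp (psi n v s) ≤
      Real.exp (lr n v s τ σ z w) := by
    rw [← Real.exp_add, ← Real.exp_add, ← Real.exp_add, ← Real.exp_add, ← Real.exp_add]
    apply Real.exp_le_exp.2
    unfold lr
    linarith
  linarith

/-! ### Gluing -/

theorem glue_E1 {Θ γ : Type} [Fintype Θ] {q : Θ → ℝ} (hq : IsLaw q) (r : Θ → γ) (F : Θ → ℝ) :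
    ∑ z, glue q q r r z * F z.1 = ∑ x, q x * F x := by
  have := sum_im_mul (glue q q r r) Prod.fst F
  rw [glue_fst hq (fun _ => rfl)] at this
  exact this.symm

theorem glue_E2 {Θ γ : Type} [Fintype Θ] {q : Θ → ℝ} (hq : IsLaw q) (r : Θ → γ) (F : Θ → ℝ) :
    ∑ z, glue q q r r z * F z.2 = ∑ x, q x * F x := by
  have := sum_im_mul (glue q q r r) Prod.snd F
  rw [glue_snd hq (fun _ => rfl)] at this
  exact this.symm

/-- The gluing of an image law. -/
theorem glue_im_sum {Θ Ω' γ : Type} [Fintype Θ] [Fintype Ω'] (q : Θ → ℝ) (φ : Θ → Ω')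
    (f : Ω' → γ) (G : Ω' × Ω' → ℝ) :
    ∑ z, glue (im q φ) (im q φ) f f z * G z =
      ∑ z : Θ × Θ, glue q q (fun x => f (φ x)) (fun x => f (φ x)) z * G (φ z.1, φ z.2) := by
  have e1 : ∀ a : Ω', ∑ b, glue (im q φ) (im q φ) f f (a, b) * G (a, b) =
      im q φ a * ∑ b, im q φ b * (if f a = f b then G (a, b) / im (im q φ) f (f a) else 0) := by
    intro a
    rw [Finset.mul_sum]
    refine Finset.sum_congr rfl fun b _ => ?_
    unfold glue
    by_cases h : f a = f b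
    · simp only [h, if_true]
      ring
    · simp only [h, if_false]
      ring
  rw [Fintype.sum_prod_type, Finset.sum_congr rfl fun a _ => e1 a,
    sum_im_mul q φ (fun a => ∑ b, im q φ b *
      (if f a = f b then G (a, b) / im (im q φ) f (f a) else 0)), Fintype.sum_prod_type]
  refine Finset.sum_congr rfl fun x _ => ?_
  rw [sum_im_mul q φ (fun b => if f (φ x) = f b then G (φ x, b) / im (im q φ) f (f (φ x)) else 0),
    Finset.mul_sum]
  refine Finset.sum_congr rfl fun y _ => ?_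
  unfold glue
  rw [im_comp]
  by_cases h : f (φ x) = f (φ y)
  · simp only [h, if_true]
    ring
  · simp only [h, if_false]
    ring

/-- a preimage of `a` -/
noncomputable def pick {Θ α : Type} (F : Θ → α) (a : α) (h : ∃ y, F y = a) : Θ := h.choose

/-- a representative of the class of `x` -/
noncomputable def rep {Θ α : Type} (F : Θ → α) (x : Θ) : Θ := pick F (F x) ⟨x, rfl⟩

theorem rep_spec {Θ α : Type} (F : Θ → α) (x : Θ) : F (rep F x) = F x :=
  (⟨x, rfl⟩ : ∃ y, F y = F x).choose_spec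

theorem rep_eq {Θ α : Type} (F : Θ → α) {x y : Θ} (h : F x = F y) : rep F x = rep F y := by
  have : ∀ (a b : α) (ha : ∃ y, F y = a) (hb : ∃ y, F y = b), a = b → pick F a ha = pick F b hb := by
    rintro a _ _ _ rfl
    rfl
  exact this _ _ _ _ h

theorem rep_iff {Θ α : Type} (F : Θ → α) {x y : Θ} (h : rep F x = rep F y) : F x = F y := by
  rw [← rep_spec F x, h, rep_spec F y]

/-- Elementary bound for the iterated logarithm. -/
theorem loglog {K ε : ℝ} (hK : 0 ≤ K) (hε : 0 < ε) : ∃ C : ℝ, 0 ≤ C ∧ ∀ u : ℝ, 0 ≤ u →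
    K * (1 + Real.log (1 + u)) ≤ ε * u + C := by
  obtain ⟨η, hη⟩ : ∃ η, η = ε / (K + 1) := ⟨_, rfl⟩
  have hη0 : 0 < η := by rw [hη]; positivity
  refine ⟨K * (1 + η + |Real.log η|), by positivity, ?_⟩
  intro u hu
  have h1 : Real.log (1 + u) ≤ η * (1 + u) - 1 - Real.log η := by
    have h2 := Real.log_le_sub_one_of_pos (show 0 < η * (1 + u) by positivity)
    rw [Real.log_mul hη0.ne' (by positivity)] at h2
    linarith
  have h3 : K * η ≤ ε := by
    rw [hη, mul_div_assoc', div_le_iff₀ (by positivity)]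
    nlinarith
  have h4 := neg_abs_le (Real.log η)
  have h5 : K * (1 + Real.log (1 + u)) ≤ K * (1 + (η * (1 + u) + |Real.log η|)) := by
    apply mul_le_mul_of_nonneg_left _ hK
    linarith
  have h6 : K * η * u ≤ ε * u := mul_le_mul_of_nonneg_right h3 hu
  calc K * (1 + Real.log (1 + u)) ≤ K * (1 + (η * (1 + u) + |Real.log η|)) := h5
    _ = K * η * u + K * (1 + η + |Real.log η|) := by ring
    _ ≤ _ := by linarith

/-- **FW** -/
theorem t_fw (hBOX : S_BOX) (hF9 : S_F9) : S_FW := by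
  intro d ε hε
  obtain ⟨C9, hC9, H9⟩ := hF9 d (ε / 2) (by positivity)
  obtain ⟨CB, hCB, HB⟩ := hBOX 1 8 (by norm_num)
  obtain ⟨C2, hC2, hlog⟩ := loglog hCB (show 0 < ε / 2 by positivity)
  refine ⟨C9 + C2 + 20, by positivity, ?_⟩
  intro n Ω _ A D hfam p S hp Θ iΘ q l1 l2 l3 s0 s1 t t' τ v hc
  have hq : IsLaw q := hc.law
  have hn : 1 ≤ n := hfam.pos
  have hnr : (1 : ℝ) ≤ n := by exact_mod_cast hn
  have h9 := H9 n Ω A D hfam p S hp Θ iΘ q l1 l2 l3 s0 s1 t t' τ v hc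
  show H q (fun z => (l2 z, WW A D l2 l3 s0 s1 t t' τ v z, v z, s1 z)) ≤
    H q (fun z => (l2 z, WW A D l2 l3 s0 s1 t t' τ v z)) +
    2 * (H q (fun z => (l2 z, WW A D l2 l3 s0 s1 t t' τ v z, τ z,
        (XX A D l1 l3 s0 s1 t t' z).1)) -
      H q (fun z => (l2 z, WW A D l2 l3 s0 s1 t t' τ v z, τ z))) +
    4 * wG q l1 l2 l3 s0 s1 t t' τ v + (ε * Real.log n + (C9 + C2 + 20) * (1 + S))
  replace h9 : H q (fun z => ((v z, τ z, (WW A D l2 l3 s0 s1 t t' τ v z).1,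
      (XX A D l1 l3 s0 s1 t t' z).1), s1 z)) ≤
    H q (fun z => (v z, τ z, (WW A D l2 l3 s0 s1 t t' τ v z).1,
      (XX A D l1 l3 s0 s1 t t' z).1)) + (ε / 2 * Real.log n + C9 * (1 + S)) := h9
  -- abbreviations
  obtain ⟨Y, hY⟩ : ∃ Y : Θ → ℤ, Y = fun z => YY s0 s1 t t' z := ⟨_, rfl⟩
  obtain ⟨M, hM⟩ : ∃ M : Θ → ℤ, M = fun z => MM s0 s1 t t' τ v z := ⟨_, rfl⟩
  obtain ⟨W, hW⟩ : ∃ W : Θ → ℤ × (Fin d → ℤ), W = fun z => WW A D l2 l3 s0 s1 t t' τ v z :=
    ⟨_, rfl⟩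
  obtain ⟨X, hX⟩ : ∃ X : Θ → ℤ, X = fun z => (XX A D l1 l3 s0 s1 t t' z).1 := ⟨_, rfl⟩
  obtain ⟨F, hF⟩ : ∃ F : Θ → Ω × Ω × Ω × Fin n × Fin n × Fin n × ℤ,
      F = fun z => (l1 z, l2 z, l3 z, s0 z, s1 z, v z, M z) := ⟨_, rfl⟩
  obtain ⟨w, hw⟩ : ∃ w, w = wG q l1 l2 l3 s0 s1 t t' τ v := ⟨_, rfl⟩
  have eW : ∀ z, WW A D l2 l3 s0 s1 t t' τ v z = W z := fun z => by rw [hW]
  have eX : ∀ z, (XX A D l1 l3 s0 s1 t t' z).1 = X z := fun z => by rw [hX]
  have eM : ∀ z, MM s0 s1 t t' τ v z = M z := fun z => by rw [hM]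
  simp only [eW, eX] at h9 ⊢
  rw [← hw]
  have W1 : ∀ z, (W z).1 = ((v z : ℕ) : ℤ) + M z := fun z => by rw [hW, hM]; rfl
  have X1 : ∀ z, X z = ((s1 z : ℕ) : ℤ) + Y z := fun z => by rw [hX, hY]; rfl
  have M1 : ∀ z, M z = mm (s1 z) (v z) (τ z) (Y z) := fun z => by rw [hM, hY]; rfl
  have Y1 : ∀ z, Y z = yy (s0 z) (s1 z) (t z) (t' z) := fun z => by rw [hY]; rfl
  have hFd : ∀ x y, F x = F y → (l1 x = l1 y ∧ l2 x = l2 y ∧ l3 x = l3 y ∧ s0 x = s0 y ∧
      s1 x = s1 y ∧ v x = v y ∧ M x = M y) ∧ W x = W y := by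
    intro x y h
    rw [hF] at h
    simp only [Prod.mk.injEq] at h
    obtain ⟨a1, a2, a3, a4, a5, a6, a7⟩ := h
    refine ⟨⟨a1, a2, a3, a4, a5, a6, a7⟩, ?_⟩
    rw [hW]
    simp only [WW, eM, a2, a3, a6, a7]
  -- the deficiency
  have hwd : w = Real.log n - (H q (fun z => (F z, τ z)) - H q F) := by
    have e1 : H q (fun z => (l1 z, l2 z, l3 z, s0 z, s1 z, v z, MM s0 s1 t t' τ v z, τ z)) =
        H q (fun z => (F z, τ z)) := by
      apply H_congr hq
      · intro x y _ _ h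
        rw [hF]
        simp only [Prod.mk.injEq, eM] at h ⊢
        tauto
      · intro x y _ _ h
        rw [hF] at h
        simp only [Prod.mk.injEq, eM] at h ⊢
        tauto
    have e2 : H q (fun z => (l1 z, l2 z, l3 z, s0 z, s1 z, v z, MM s0 s1 t t' τ v z)) = H q F := by
      rw [hF]
      simp only [eM]
    rw [hw]
    unfold wG
    rw [e1, e2]
  -- the gluing
  obtain ⟨r, hr⟩ : ∃ r : Θ → Θ, r = rep F := ⟨_, rfl⟩
  have hr1 : ∀ x y, r x = r y → F x = F y := fun x y h => rep_iff F (by rwa [hr] at h)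
  have hr2 : ∀ x y, F x = F y → r x = r y := fun x y h => by rw [hr]; exact rep_eq F h
  obtain ⟨g, hg⟩ : ∃ g : Θ × Θ → ℝ, g = glue q q r r := ⟨_, rfl⟩
  have hgl : IsLaw g := hg ▸ glue_law hq hq (fun _ => rfl)
  have hgs : ∀ z, g z ≠ 0 → F z.1 = F z.2 ∧ q z.1 ≠ 0 ∧ q z.2 ≠ 0 := by
    intro z hz
    rw [hg] at hz
    obtain ⟨a1, a2, a3⟩ := glue_supp hz
    exact ⟨hr1 _ _ a1, a2, a3⟩
  have hg1 : ∀ {α : Type} (u : Θ → α), H g (fun z => u z.1) = H q u := fun u => by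
    rw [hg]; exact H_glue_fst hq (fun _ => rfl) u
  have hg2 : ∀ {α : Type} (u : Θ → α), H g (fun z => u z.2) = H q u := fun u => by
    rw [hg]; exact H_glue_snd hq (fun _ => rfl) u
  -- entropy of the pair
  have a1 : H g (fun z => ((r z.1, τ z.1), (r z.2, τ z.2))) =
      H q (fun z => (F z, τ z)) + H q (fun z => (F z, τ z)) - H q F := by
    rw [hg]
    have h1 := H_glue (p := q) (q := q) (f := r) (g := r) hq hq (fun _ => rfl)
      (u := fun z => (r z, τ z)) (v := fun z => (r z, τ z)) (Det.fst q r τ) (Det.fst q r τ)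
    have h2 : H q (fun z => (r z, τ z)) = H q (fun z => (F z, τ z)) := by
      apply H_congr hq
      · intro x y _ _ h
        simp only [Prod.mk.injEq] at h ⊢
        exact ⟨hr1 _ _ h.1, h.2⟩
      · intro x y _ _ h
        simp only [Prod.mk.injEq] at h ⊢
        exact ⟨hr2 _ _ h.1, h.2⟩
    have h3 : H q r = H q F := H_congr hq (fun x y _ _ h => hr1 _ _ h) (fun x y _ _ h => hr2 _ _ h)
    rw [h2, h3] at h1
    exact h1
  -- first submodularity
  have a2 : H g (fun z => ((r z.1, τ z.1), (r z.2, τ z.2))) +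
      H g (fun z => (l2 z.1, W z.1, v z.1, s1 z.1)) ≤
      H g (fun z => F z.1) + H g (fun z => (l2 z.1, W z.1, v z.1, s1 z.1, τ z.1, τ z.2)) :=
    submod' hgl (by
      intro x y _ _ h
      obtain ⟨⟨_, b2, _, _, b5, b6, _⟩, b8⟩ := hFd _ _ h
      simp only [Prod.mk.injEq]
      exact ⟨b2, b8, b6, b5⟩) (by
      intro x y _ _ h
      simp only [Prod.mk.injEq] at h ⊢
      tauto) (by
      intro x y hx hy h
      simp only [Prod.mk.injEq] at h ⊢
      obtain ⟨h1, h2, h3, h4, h5, h6, h7⟩ := h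
      have k1 := (hgs x hx).1
      have k2 := (hgs y hy).1
      exact ⟨⟨hr2 _ _ h1, h6⟩, hr2 _ _ (k1.symm.trans (h1.trans k2)), h7⟩)
  have a3 : H g (fun z => (l2 z.1, W z.1, v z.1, s1 z.1, τ z.1, τ z.2)) ≤
      H g (fun z => (l2 z.1, W z.1, v z.1, s1 z.1, τ z.1, τ z.2, X z.1, X z.2)) :=
    H_mono hgl (by
      intro x y _ _ h
      simp only [Prod.mk.injEq] at h ⊢
      tauto)
  have a4 : H g (fun z => (l2 z.1, W z.1, v z.1, s1 z.1, τ z.1, τ z.2, X z.1, X z.2)) +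
      H g (fun z => (v z.1, τ z.1, (W z.1).1, X z.1)) ≤
      H g (fun z => (l2 z.1, W z.1, v z.1, τ z.1, τ z.2, X z.1, X z.2)) +
      H g (fun z => ((v z.1, τ z.1, (W z.1).1, X z.1), s1 z.1)) :=
    submod' hgl (by
      intro x y _ _ h
      simp only [Prod.mk.injEq] at h ⊢
      obtain ⟨h1, h2, h3, h4, h5, h6, h7⟩ := h
      exact ⟨h3, h4, by rw [h2], h6⟩) (by
      intro x y _ _ h
      simp only [Prod.mk.injEq] at h ⊢
      tauto) (by
      intro x y _ _ h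
      simp only [Prod.mk.injEq] at h ⊢
      tauto)
  have a5 := hg1 (fun z => (v z, τ z, (W z).1, X z))
  have a6 := hg1 (fun z => ((v z, τ z, (W z).1, X z), s1 z))
  have a7 := hg1 F
  have a8 := hg1 (fun z => (l2 z, W z, v z, s1 z))
  have a9 : H g (fun z => (l2 z.1, W z.1, τ z.1, τ z.2, X z.1, X z.2)) +
      H g (fun z => (l2 z.1, W z.1)) ≤ H g (fun z => (l2 z.1, W z.1, τ z.1, X z.1)) +
      H g (fun z => (l2 z.2, W z.2, τ z.2, X z.2)) :=
    submod' hgl (by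
      intro x y _ _ h
      simp only [Prod.mk.injEq] at h ⊢
      tauto) (by
      intro x y hx hy h
      have k1 := hFd _ _ (hgs x hx).1
      have k2 := hFd _ _ (hgs y hy).1
      simp only [Prod.mk.injEq] at h ⊢
      exact ⟨k1.1.2.1.trans (h.1.trans k2.1.2.1.symm), k1.2.trans (h.2.1.trans k2.2.symm)⟩) (by
      intro x y _ _ h
      simp only [Prod.mk.injEq] at h ⊢
      tauto)
  have a10 := hg1 (fun z => (l2 z, W z, τ z, X z))
  have a11 := hg2 (fun z => (l2 z, W z, τ z, X z))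
  have a12 := hg1 (fun z => (l2 z, W z))
  have a13 : H q (fun z => (l2 z, W z, τ z)) ≤ H q (fun z => (l2 z, W z)) + Real.log n := by
    have h1 : H q (fun z => (l2 z, W z, τ z)) ≤ H q (fun z => (l2 z, W z)) + H q τ :=
      subadd hq (by intro x y _ _ h; simp only [Prod.mk.injEq] at h ⊢; tauto)
    have h2 := H_height hq τ
    linarith
  -- the cost of `v`
  obtain ⟨R, hR⟩ : ∃ R : Θ × Θ → ℝ, R = fun z => 6 * Real.exp
      (lr n (v z.1) (s1 z.1) (τ z.1) (τ z.2) (X z.1) (X z.2)) := ⟨_, rfl⟩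
  have hlr0 : ∀ z : Θ × Θ, 0 ≤ lr n (v z.1) (s1 z.1) (τ z.1) (τ z.2) (X z.1) (X z.2) := by
    intro z
    unfold lr
    have q1 := psi_nonneg (τ z.1).2 (v z.1).2
    have q2 := psi_nonneg (τ z.2).2 (v z.1).2
    have q3 := psi_nonneg (v z.1).2 (s1 z.1).2
    have q4 := psi_nonneg (τ z.1).2 (s1 z.1).2
    have q5 := psi_nonneg (τ z.2).2 (s1 z.1).2
    have q6 := psi_nonneg (τ z.1).2 (τ z.2).2
    have q7 := pz_nonneg n ((τ z.1 : ℕ) : ℤ) (X z.1)
    have q8 := pz_nonneg n ((τ z.2 : ℕ) : ℤ) (X z.2)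
    linarith
  have hRlog : ∀ z, Real.log (R z) = Real.log 6 +
      lr n (v z.1) (s1 z.1) (τ z.1) (τ z.2) (X z.1) (X z.2) := by
    intro z
    rw [hR]
    simp only
    rw [Real.log_mul (by norm_num) (Real.exp_pos _).ne', Real.log_exp]
  have log6 : Real.log 6 ≤ 2 := by
    have h1 : (6 : ℝ) ≤ Real.exp 2 := by
      have h2 := Real.exp_one_gt_d9
      have h3 : Real.exp 2 = Real.exp 1 * Real.exp 1 := by rw [← Real.exp_add]; norm_num
      rw [h3]
      nlinarith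
    calc Real.log 6 ≤ Real.log (Real.exp 2) := Real.log_le_log (by norm_num) h1
      _ = 2 := Real.log_exp 2
  have b1 := HB (Θ × Θ) (Ω × (ℤ × (Fin d → ℤ)) × Fin n × Fin n × ℤ × ℤ) g
    (fun z => (l2 z.1, W z.1, τ z.1, τ z.2, X z.1, X z.2)) (fun z _ => ((v z.1 : ℕ) : ℤ)) R n hn
    hgl (by
      intro z _
      have q0 := hlr0 z
      constructor
      · rw [hR]
        simp only
        have := Real.one_le_exp q0
        linarith
      · rw [hRlog]
        have hl : lr n (v z.1) (s1 z.1) (τ z.1) (τ z.2) (X z.1) (X z.2) ≤ 8 * Real.log n := by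
          unfold lr
          have q1 := psi_le_log (i := (τ z.1 : ℕ)) (j := (v z.1 : ℕ)) hn
          have q2 := psi_le_log (i := (τ z.2 : ℕ)) (j := (v z.1 : ℕ)) hn
          have q3 := psi_le_log (i := (v z.1 : ℕ)) (j := (s1 z.1 : ℕ)) hn
          have q4 := psi_le_log (i := (τ z.1 : ℕ)) (j := (s1 z.1 : ℕ)) hn
          have q5 := psi_le_log (i := (τ z.2 : ℕ)) (j := (s1 z.1 : ℕ)) hn
          have q6 := psi_le_log (i := (τ z.1 : ℕ)) (j := (τ z.2 : ℕ)) hn
          have q7 := pz_le_log hn ((τ z.1 : ℕ) : ℤ) (X z.1)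
          have q8 := pz_le_log hn ((τ z.2 : ℕ) : ℤ) (X z.2)
          linarith
        linarith)
    (by
      intro x y hx hy h i
      simp only [Prod.mk.injEq] at h
      obtain ⟨_, h2, h3, h4, h5, h6⟩ := h
      have kx := hFd _ _ (hgs x hx).1
      have ky := hFd _ _ (hgs y hy).1
      obtain ⟨⟨_, _, _, _, kx5, kx6, kx7⟩, _⟩ := kx
      obtain ⟨⟨_, _, _, _, ky5, ky6, ky7⟩, _⟩ := ky
      have key := fw_key (n := n) (v := (v x.1 : ℕ)) (s := (s1 x.1 : ℕ)) (v' := (v y.1 : ℕ))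
        (s' := (s1 y.1 : ℕ)) (τ := (τ x.1 : ℕ)) (σ := (τ x.2 : ℕ)) hn (v x.1).2 (s1 x.1).2
        (v y.1).2 (s1 y.1).2 (τ x.1).2 (τ x.2).2 (z := X x.1) (w := X x.2) (y := Y x.1)
        (u := Y x.2) (y' := Y y.1) (u' := Y y.2) (m := M x.1) (m' := M y.1)
        (X1 x.1) (by rw [X1 x.2, kx5]) (M1 x.1) (by rw [kx7, M1 x.2, kx5, kx6])
        (by rw [h5]; exact X1 y.1) (by rw [h6, X1 y.2, ky5]) (by rw [h3]; exact M1 y.1)
        (by rw [h4, ky7, M1 y.2, ky5, ky6]) (by rw [← W1 x.1, ← W1 y.1, h2])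
      rw [hR]
      simp only
      rw [← h3, ← h4, ← h5, ← h6]
      push_cast
      exact key)
  have b2 : H g (fun z => (l2 z.1, W z.1, v z.1, τ z.1, τ z.2, X z.1, X z.2)) ≤
      H g (fun z => ((l2 z.1, W z.1, τ z.1, τ z.2, X z.1, X z.2),
        (fun _ : Fin 1 => ((v z.1 : ℕ) : ℤ)))) := H_mono hgl (by
      intro x y _ _ h
      simp only [Prod.mk.injEq] at h ⊢
      obtain ⟨⟨h1, h2, h3, h4, h5, h6⟩, h7⟩ := h
      have h8 := congrFun h7 0
      simp only [Nat.cast_inj, Fin.val_inj] at h8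
      exact ⟨h1, h2, h8, h3, h4, h5, h6⟩)
  -- expectations
  have s0' : 0 ≤ S := by
    have h1 : 0 ≤ ∑ z, q z * psi n (τ z) (s1 z) :=
      Finset.sum_nonneg fun z _ => mul_nonneg (hq.nonneg z) (psi_nonneg (τ z).2 (s1 z).2)
    exact h1.trans (hc.c5.trans hc.sep_le)
  have c5 := hc.c5.trans hc.sep_le
  have c6 := hc.c6.trans hc.sep_le
  have c7 := hc.c7.trans hc.sep_le
  have cx : ∑ z, q z * pz n ((τ z : ℕ) : ℤ) (X z) ≤ S := by
    have h1 := hc.τx (fun a b c d => ((b : ℕ) : ℤ) + yy a b c d)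
    refine le_trans (le_of_eq ?_) h1
    refine Finset.sum_congr rfl fun z _ => ?_
    rw [X1 z, Y1 z]
  -- the two copies of `τ`
  have cτ : ∑ z : Θ × Θ, g z * psi n (τ z.1) (τ z.2) ≤ 2 * w + 4 := by
    have h1 := (Pool.Agent.W976.HD.PSI Θ n (im q fun z => (r z, τ z)) hn (hq.im _)).2
    rw [glue_im_sum q (fun z => (r z, τ z)) Prod.fst (fun z => psi n z.1.2 z.2.2)] at h1
    have h2 : lam (im q fun z => (r z, τ z)) = w := by
      unfold lam
      rw [H_im, H_im, hwd]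
      have h3 : H q (fun z => id (r z, τ z)) = H q (fun z => (F z, τ z)) := by
        apply H_congr hq
        · intro x y _ _ h
          simp only [id, Prod.mk.injEq] at h ⊢
          exact ⟨hr1 _ _ h.1, h.2⟩
        · intro x y _ _ h
          simp only [id, Prod.mk.injEq] at h ⊢
          exact ⟨hr2 _ _ h.1, h.2⟩
      have h4 : H q (fun z => (r z, τ z).1) = H q F :=
        H_congr hq (fun x y _ _ h => hr1 _ _ h) (fun x y _ _ h => hr2 _ _ h)
      rw [h3, h4]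
    rw [h2] at h1
    rw [hg]
    exact h1
  have cost : ∑ z, g z * Real.log (R z) ≤ 2 + 7 * S + (2 * w + 4) := by
    have e0 : ∀ z, g z * Real.log (R z) = g z * Real.log 6 + g z * psi n (τ z.1) (v z.1) +
        g z * psi n (τ z.2) (v z.1) + g z * psi n (v z.1) (s1 z.1) +
        g z * psi n (τ z.1) (s1 z.1) + g z * psi n (τ z.2) (s1 z.1) +
        g z * psi n (τ z.1) (τ z.2) + g z * pz n ((τ z.1 : ℕ) : ℤ) (X z.1) +
        g z * pz n ((τ z.2 : ℕ) : ℤ) (X z.2) := by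
      intro z
      rw [hRlog]
      unfold lr
      ring
    rw [Finset.sum_congr rfl fun z _ => e0 z]
    simp only [Finset.sum_add_distrib]
    have u0 : ∑ z, g z * Real.log 6 ≤ 2 := by
      rw [← Finset.sum_mul, hgl.total, one_mul]
      exact log6
    have u1 : ∑ z, g z * psi n (τ z.1) (v z.1) ≤ S := by
      rw [hg, glue_E1 hq r (fun z => psi n (τ z) (v z))]
      exact c6
    have u2 : ∑ z, g z * psi n (τ z.2) (v z.1) ≤ S := by
      have : ∀ z, g z * psi n (τ z.2) (v z.1) = g z * psi n (τ z.2) (v z.2) := by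
        intro z
        by_cases hz : g z = 0
        · rw [hz, zero_mul, zero_mul]
        · rw [(hFd _ _ (hgs z hz).1).1.2.2.2.2.2.1]
      rw [Finset.sum_congr rfl fun z _ => this z, hg, glue_E2 hq r (fun z => psi n (τ z) (v z))]
      exact c6
    have u3 : ∑ z, g z * psi n (v z.1) (s1 z.1) ≤ S := by
      rw [hg, glue_E1 hq r (fun z => psi n (v z) (s1 z))]
      exact c7
    have u4 : ∑ z, g z * psi n (τ z.1) (s1 z.1) ≤ S := by
      rw [hg, glue_E1 hq r (fun z => psi n (τ z) (s1 z))]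
      exact c5
    have u5 : ∑ z, g z * psi n (τ z.2) (s1 z.1) ≤ S := by
      have : ∀ z, g z * psi n (τ z.2) (s1 z.1) = g z * psi n (τ z.2) (s1 z.2) := by
        intro z
        by_cases hz : g z = 0
        · rw [hz, zero_mul, zero_mul]
        · rw [(hFd _ _ (hgs z hz).1).1.2.2.2.2.1]
      rw [Finset.sum_congr rfl fun z _ => this z, hg, glue_E2 hq r (fun z => psi n (τ z) (s1 z))]
      exact c5
    have u7 : ∑ z, g z * pz n ((τ z.1 : ℕ) : ℤ) (X z.1) ≤ S := by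
      rw [hg, glue_E1 hq r (fun z => pz n ((τ z : ℕ) : ℤ) (X z))]
      exact cx
    have u8 : ∑ z, g z * pz n ((τ z.2 : ℕ) : ℤ) (X z.2) ≤ S := by
      rw [hg, glue_E2 hq r (fun z => pz n ((τ z : ℕ) : ℤ) (X z))]
      exact cx
    linarith
  have hl := hlog (Real.log n) (Real.log_nonneg hnr)
  rw [a1] at a2
  rw [a7, a8] at a2
  rw [a5, a6] at a4
  rw [a10, a11, a12] at a9
  have d1 : (C9 + C2 + 20) * (1 + S) = C9 * (1 + S) + C2 + C2 * S + 20 + 20 * S := by ring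
  rw [d1]
  have d2 : 0 ≤ C2 * S := mul_nonneg hC2 s0'
  push_cast at b1
  linarith

end Pool.Agent.Y275.HK
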