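import Mathlib

/-!
# The real inequality behind `FW` (project HK)
-/

set_option autoImplicit false

namespace Pool.Agent.Y275.HK

/-- Two approximations of the same slope. -/
theorem fw_sub {c cy g w e e' : ℝ} (h1 : c * (g - e) = w) (h2 : cy * (g - e') = w)
    (he : |e| ≤ 1 / 2) (he' : |e'| ≤ 1 / 2) (hg : 1 ≤ |g|) : |cy - c| * |w| ≤ 3 * c ^ 2 := by
  have a1 : |g - e'| ≥ |g| / 2 := by
    have := abs_sub_abs_le_abs_sub g e'
    linarith
  have a2 : |g - e| ≤ 3 / 2 * |g| := by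
    have := abs_sub g e
    linarith
  have a3 : |cy| * |g - e'| = |c| * |g - e| := by
    rw [← abs_mul, ← abs_mul, h1, h2]
  have hg0 : 0 < |g| := by linarith
  have a4 : |cy| ≤ 3 * |c| := by
    have b1 : |cy| * (|g| / 2) ≤ |c| * (3 / 2 * |g|) := by
      calc |cy| * (|g| / 2) ≤ |cy| * |g - e'| := mul_le_mul_of_nonneg_left a1 (abs_nonneg _)
        _ = |c| * |g - e| := a3
        _ ≤ _ := mul_le_mul_of_nonneg_left a2 (abs_nonneg _)
    by_contra hcon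
    push Not at hcon
    have : 3 * |c| * (|g| / 2) < |cy| * (|g| / 2) := mul_lt_mul_of_pos_right hcon (by linarith)
    nlinarith
  have a5 : |cy - c| * |g| ≤ 2 * |c| := by
    have b1 : (cy - c) * g = cy * e' - c * e := by linarith
    rw [← abs_mul, b1]
    calc |cy * e' - c * e| ≤ |cy * e'| + |c * e| := abs_sub _ _
      _ = |cy| * |e'| + |c| * |e| := by rw [abs_mul, abs_mul]
      _ ≤ |cy| * (1 / 2) + |c| * (1 / 2) := by
          gcongr
      _ ≤ 2 * |c| := by linarith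
  have a6 : |w| ≤ |c| * (3 / 2 * |g|) := by
    rw [← h1, abs_mul]
    exact mul_le_mul_of_nonneg_left a2 (abs_nonneg _)
  calc |cy - c| * |w| ≤ |cy - c| * (|c| * (3 / 2 * |g|)) :=
        mul_le_mul_of_nonneg_left a6 (abs_nonneg _)
    _ = 3 / 2 * |c| * (|cy - c| * |g|) := by ring
    _ ≤ 3 / 2 * |c| * (2 * |c|) := mul_le_mul_of_nonneg_left a5 (by positivity)
    _ = 3 * |c| ^ 2 := by ring
    _ = 3 * c ^ 2 := by rw [sq_abs]

/-- The bound in the nondegenerate case. -/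
theorem fw_main {N τ σ z w γ v s a b v' s' a' b' : ℝ}
    (h1 : (s - τ) * (a - τ) = (z - τ) * (v - τ)) (h2 : (s - σ) * (b - σ) = (w - σ) * (v - σ))
    (h1' : (s' - τ) * (a' - τ) = (z - τ) * (v' - τ))
    (h2' : (s' - σ) * (b' - σ) = (w - σ) * (v' - σ))
    (ha : |γ - a| ≤ 1 / 2) (hb : |γ - b| ≤ 1 / 2) (ha' : |γ - a'| ≤ 1 / 2) (hb' : |γ - b'| ≤ 1 / 2)
    (hγ : 1 ≤ |γ - τ|) (hγ' : 1 ≤ |γ - σ|)
    (e1 : v ≠ τ) (e2 : v ≠ σ) (e3 : v' ≠ τ) (e4 : v' ≠ σ)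
    (b1 : |v' - τ| ≤ N) (b2 : |v' - σ| ≤ N) (b3 : |s - τ| ≤ N) (b4 : |s - σ| ≤ N)
    (b5 : |v - τ| ≤ N) (b6 : |v - σ| ≤ N)
    {P Q P' Q' E F : ℝ} (hP : N ≤ P * |v - τ|) (hQ : N ≤ Q * |z - τ|) (hP' : N ≤ P' * |v - σ|)
    (hQ' : N ≤ Q' * |w - σ|) (hE : N ≤ E * |τ - σ|) (hF : N ≤ F * |v - s|)
    (p1 : 1 ≤ P) (p2 : 1 ≤ Q) (p3 : 1 ≤ P') (p4 : 1 ≤ Q') (p5 : 1 ≤ E) (p6 : 1 ≤ F)
    (hN : 0 < N) :
    |v - v'| ≤ 6 * (P * Q * P' * Q' * E * F) := by
  have k1 : v - τ ≠ 0 := sub_ne_zero.2 e1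
  have k2 : v - σ ≠ 0 := sub_ne_zero.2 e2
  have k3 : v' - τ ≠ 0 := sub_ne_zero.2 e3
  have k4 : v' - σ ≠ 0 := sub_ne_zero.2 e4
  obtain ⟨c, hc⟩ : ∃ c, c = (s - τ) / (v - τ) := ⟨_, rfl⟩
  obtain ⟨c2, hc2⟩ : ∃ c, c = (s - σ) / (v - σ) := ⟨_, rfl⟩
  obtain ⟨cy, hcy⟩ : ∃ c, c = (s' - τ) / (v' - τ) := ⟨_, rfl⟩
  obtain ⟨cy2, hcy2⟩ : ∃ c, c = (s' - σ) / (v' - σ) := ⟨_, rfl⟩
  have c1 : c * (v - τ) = s - τ := by rw [hc, div_mul_cancel₀ _ k1]
  have c2' : c2 * (v - σ) = s - σ := by rw [hc2, div_mul_cancel₀ _ k2]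
  have c3 : cy * (v' - τ) = s' - τ := by rw [hcy, div_mul_cancel₀ _ k3]
  have c4 : cy2 * (v' - σ) = s' - σ := by rw [hcy2, div_mul_cancel₀ _ k4]
  have m1 : c * ((γ - τ) - (γ - a)) = z - τ := by
    have : c * (a - τ) * (v - τ) = (z - τ) * (v - τ) := by
      rw [← h1, ← c1]; ring
    have := mul_right_cancel₀ k1 this
    rw [← this]; ring
  have m2 : c2 * ((γ - σ) - (γ - b)) = w - σ := by
    have : c2 * (b - σ) * (v - σ) = (w - σ) * (v - σ) := by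
      rw [← h2, ← c2']; ring
    have := mul_right_cancel₀ k2 this
    rw [← this]; ring
  have m3 : cy * ((γ - τ) - (γ - a')) = z - τ := by
    have : cy * (a' - τ) * (v' - τ) = (z - τ) * (v' - τ) := by
      rw [← h1', ← c3]; ring
    have := mul_right_cancel₀ k3 this
    rw [← this]; ring
  have m4 : cy2 * ((γ - σ) - (γ - b')) = w - σ := by
    have : cy2 * (b' - σ) * (v' - σ) = (w - σ) * (v' - σ) := by
      rw [← h2', ← c4]; ring
    have := mul_right_cancel₀ k4 this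
    rw [← this]; ring
  have n1 := fw_sub m1 m3 ha ha' hγ
  have n2 := fw_sub m2 m4 hb hb' hγ'
  have i1 : (c - c2) * (v - v') = (cy - c) * (v' - τ) - (cy2 - c2) * (v' - σ) := by
    linear_combination c1 - c2' - c3 + c4
  have i2 : (c - c2) * ((v - τ) * (v - σ)) = (σ - τ) * (v - s) := by
    linear_combination (v - σ) * c1 - (v - τ) * c2'
  -- abbreviations
  obtain ⟨U, hU⟩ : ∃ U, U = |v - v'| := ⟨_, rfl⟩
  obtain ⟨x, hx⟩ : ∃ x, x = |v - τ| := ⟨_, rfl⟩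
  obtain ⟨x2, hx2⟩ : ∃ x, x = |v - σ| := ⟨_, rfl⟩
  obtain ⟨y, hy⟩ : ∃ y, y = |z - τ| := ⟨_, rfl⟩
  obtain ⟨y2, hy2⟩ : ∃ y, y = |w - σ| := ⟨_, rfl⟩
  obtain ⟨d, hd⟩ : ∃ d, d = |cy - c| := ⟨_, rfl⟩
  obtain ⟨d2, hd2⟩ : ∃ d, d = |cy2 - c2| := ⟨_, rfl⟩
  obtain ⟨f, hf⟩ : ∃ f, f = |v - s| := ⟨_, rfl⟩
  obtain ⟨e, he⟩ : ∃ e, e = |τ - σ| := ⟨_, rfl⟩
  have he' : |σ - τ| = e := by rw [he, abs_sub_comm]
  have j1 : U * |c - c2| ≤ N * (d + d2) := by
    rw [hU, mul_comm, ← abs_mul, i1]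
    calc |(cy - c) * (v' - τ) - (cy2 - c2) * (v' - σ)|
        ≤ |(cy - c) * (v' - τ)| + |(cy2 - c2) * (v' - σ)| := abs_sub _ _
      _ = d * |v' - τ| + d2 * |v' - σ| := by rw [abs_mul, abs_mul, hd, hd2]
      _ ≤ d * N + d2 * N := by
          have := mul_le_mul_of_nonneg_left b1 (hd ▸ abs_nonneg (cy - c) : 0 ≤ d)
          have := mul_le_mul_of_nonneg_left b2 (hd2 ▸ abs_nonneg (cy2 - c2) : 0 ≤ d2)
          linarith
      _ = N * (d + d2) := by ring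
  have j2 : |c - c2| * (x * x2) = e * f := by
    rw [hx, hx2, ← abs_mul, ← abs_mul, i2, abs_mul, he', hf]
  have hx0 : 0 < x := hx ▸ abs_pos.2 k1
  have hx20 : 0 < x2 := hx2 ▸ abs_pos.2 k2
  have hU0 : 0 ≤ U := hU ▸ abs_nonneg _
  have j3 : U * (e * f) ≤ N * (d + d2) * (x * x2) := by
    rw [← j2]
    calc U * (|c - c2| * (x * x2)) = U * |c - c2| * (x * x2) := by ring
      _ ≤ N * (d + d2) * (x * x2) := mul_le_mul_of_nonneg_right j1 (by positivity)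
  have sq1 : c ^ 2 * x ^ 2 ≤ N ^ 2 := by
    have : c ^ 2 * x ^ 2 = |s - τ| ^ 2 := by
      rw [← c1, hx, abs_mul, mul_pow, sq_abs c]
    rw [this]
    exact pow_le_pow_left₀ (abs_nonneg _) b3 2
  have sq2 : c2 ^ 2 * x2 ^ 2 ≤ N ^ 2 := by
    have : c2 ^ 2 * x2 ^ 2 = |s - σ| ^ 2 := by
      rw [← c2', hx2, abs_mul, mul_pow, sq_abs c2]
    rw [this]
    exact pow_le_pow_left₀ (abs_nonneg _) b4 2
  rw [← hd, ← hy] at n1
  rw [← hd2, ← hy2] at n2
  rw [← hx] at hP b5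
  rw [← hx2] at hP' b6
  rw [← hy] at hQ
  rw [← hy2] at hQ'
  rw [← he] at hE
  rw [← hf] at hF
  rw [← hU]
  have hd0 : 0 ≤ d := hd ▸ abs_nonneg _
  have hd20 : 0 ≤ d2 := hd2 ▸ abs_nonneg _
  have hy0 : 0 < y := by
    by_contra hcon
    have : y = 0 := le_antisymm (not_lt.1 hcon) (hy ▸ abs_nonneg _)
    rw [this, mul_zero] at hQ
    linarith
  have hy20 : 0 < y2 := by
    by_contra hcon
    have : y2 = 0 := le_antisymm (not_lt.1 hcon) (hy2 ▸ abs_nonneg _)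
    rw [this, mul_zero] at hQ'
    linarith
  have he0 : 0 < e := by
    by_contra hcon
    have : e = 0 := le_antisymm (not_lt.1 hcon) (he ▸ abs_nonneg _)
    rw [this, mul_zero] at hE
    linarith
  have hf0 : 0 < f := by
    by_contra hcon
    have : f = 0 := le_antisymm (not_lt.1 hcon) (hf ▸ abs_nonneg _)
    rw [this, mul_zero] at hF
    linarith
  -- `d x x2 ≤ 3 N P Q`
  have r1 : d * (x * x2) ≤ 3 * N * (P * Q) := by
    have t1 : d * y * x ^ 2 ≤ 3 * N ^ 2 := by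
      calc d * y * x ^ 2 ≤ 3 * c ^ 2 * x ^ 2 := mul_le_mul_of_nonneg_right n1 (by positivity)
        _ = 3 * (c ^ 2 * x ^ 2) := by ring
        _ ≤ 3 * N ^ 2 := by linarith
    have t2 : d * (x * x2) * (x * y) ≤ 3 * N * (P * Q) * (x * y) := by
      have t3 : N * N ≤ (P * x) * (Q * y) := mul_le_mul hP hQ hN.le (by positivity)
      calc d * (x * x2) * (x * y) = (d * y * x ^ 2) * x2 := by ring
        _ ≤ (3 * N ^ 2) * N := mul_le_mul t1 b6 hx20.le (by positivity)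
        _ = 3 * N * (N * N) := by ring
        _ ≤ 3 * N * ((P * x) * (Q * y)) := mul_le_mul_of_nonneg_left t3 (by positivity)
        _ = 3 * N * (P * Q) * (x * y) := by ring
    exact le_of_mul_le_mul_right t2 (by positivity)
  have r2 : d2 * (x * x2) ≤ 3 * N * (P' * Q') := by
    have t1 : d2 * y2 * x2 ^ 2 ≤ 3 * N ^ 2 := by
      calc d2 * y2 * x2 ^ 2 ≤ 3 * c2 ^ 2 * x2 ^ 2 := mul_le_mul_of_nonneg_right n2 (by positivity)
        _ = 3 * (c2 ^ 2 * x2 ^ 2) := by ring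
        _ ≤ 3 * N ^ 2 := by linarith
    have t2 : d2 * (x * x2) * (x2 * y2) ≤ 3 * N * (P' * Q') * (x2 * y2) := by
      have t3 : N * N ≤ (P' * x2) * (Q' * y2) := mul_le_mul hP' hQ' hN.le (by positivity)
      calc d2 * (x * x2) * (x2 * y2) = (d2 * y2 * x2 ^ 2) * x := by ring
        _ ≤ (3 * N ^ 2) * N := mul_le_mul t1 b5 hx0.le (by positivity)
        _ = 3 * N * (N * N) := by ring
        _ ≤ 3 * N * ((P' * x2) * (Q' * y2)) := mul_le_mul_of_nonneg_left t3 (by positivity)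
        _ = 3 * N * (P' * Q') * (x2 * y2) := by ring
    exact le_of_mul_le_mul_right t2 (by positivity)
  have hPQ : 1 ≤ P * Q := one_le_mul_of_one_le_of_one_le p1 p2
  have hPQ' : 1 ≤ P' * Q' := one_le_mul_of_one_le_of_one_le p3 p4
  have r3 : N * (d + d2) * (x * x2) ≤ 6 * (N * N) * (P * Q * (P' * Q')) := by
    have t1 : P * Q ≤ P * Q * (P' * Q') := le_mul_of_one_le_right (by linarith) hPQ'
    have t2 : P' * Q' ≤ P * Q * (P' * Q') := le_mul_of_one_le_left (by linarith) hPQ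
    calc N * (d + d2) * (x * x2) = N * (d * (x * x2)) + N * (d2 * (x * x2)) := by ring
      _ ≤ N * (3 * N * (P * Q)) + N * (3 * N * (P' * Q')) :=
          add_le_add (mul_le_mul_of_nonneg_left r1 hN.le) (mul_le_mul_of_nonneg_left r2 hN.le)
      _ = 3 * (N * N) * (P * Q) + 3 * (N * N) * (P' * Q') := by ring
      _ ≤ 3 * (N * N) * (P * Q * (P' * Q')) + 3 * (N * N) * (P * Q * (P' * Q')) :=
          add_le_add (mul_le_mul_of_nonneg_left t1 (by positivity))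
            (mul_le_mul_of_nonneg_left t2 (by positivity))
      _ = _ := by ring
  have r4 : N * N ≤ (E * e) * (F * f) := mul_le_mul hE hF hN.le (by positivity)
  have r5 : U * (e * f) ≤ 6 * (P * Q * P' * Q' * E * F) * (e * f) := by
    calc U * (e * f) ≤ N * (d + d2) * (x * x2) := j3
      _ ≤ 6 * (N * N) * (P * Q * (P' * Q')) := r3
      _ ≤ 6 * ((E * e) * (F * f)) * (P * Q * (P' * Q')) := by
          apply mul_le_mul_of_nonneg_right _ (by positivity)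
          linarith
      _ = _ := by ring
  exact le_of_mul_le_mul_right r5 (by positivity)

end Pool.Agent.Y275.HK
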